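import Pool.Agent.Helper42.FR.Stmts

/-!
# From the system to the relations
-/

set_option autoImplicit false

namespace Pool.Agent.Helper73.FR

open Matrix Pool.Agent.Helper81.Fmr Pool.Agent.Helper42.FR

universe u

variable {F : Type u} [Field F] {b : ℕ}

theorem ae_refl (n : ℕ) (X : Matrix (Fin b) (Fin b) F) : AE n X X := by
  unfold AE; simp

theorem ae_symm {n : ℕ} {X Y : Matrix (Fin b) (Fin b) F} (h : AE n X Y) : AE n Y X := by
  unfold AE at *
  have : Y - X = -(X - Y) := by abel
  rw [this]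
  have e : -(X - Y) = (X - Y) * (-1) := by simp
  rw [e]
  exact (Matrix.rank_mul_le_left _ _).trans h

theorem ae_trans {m n : ℕ} {X Y Z : Matrix (Fin b) (Fin b) F} (h : AE m X Y) (h' : AE n Y Z) :
    AE (m + n) X Z := by
  unfold AE at *
  have : X - Z = (X - Y) + (Y - Z) := by abel
  rw [this]
  exact (rank_add_le' _ _).trans (by omega)

theorem ae_mono {m n : ℕ} {X Y : Matrix (Fin b) (Fin b) F} (h : AE m X Y) (hm : m ≤ n) :
    AE n X Y := le_trans h hm

theorem ae_mulL {n : ℕ} {X Y : Matrix (Fin b) (Fin b) F} (A : Matrix (Fin b) (Fin b) F)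
    (h : AE n X Y) : AE n (A * X) (A * Y) := by
  unfold AE at *
  rw [← Matrix.mul_sub]
  exact (Matrix.rank_mul_le_right _ _).trans h

theorem ae_mulR {n : ℕ} {X Y : Matrix (Fin b) (Fin b) F} (A : Matrix (Fin b) (Fin b) F)
    (h : AE n X Y) : AE n (X * A) (Y * A) := by
  unfold AE at *
  rw [← Matrix.sub_mul]
  exact (Matrix.rank_mul_le_left _ _).trans h

theorem ae_mul {m n : ℕ} {X Y X' Y' : Matrix (Fin b) (Fin b) F} (h : AE m X Y)
    (h' : AE n X' Y') : AE (m + n) (X * X') (Y * Y') :=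
  ae_trans (ae_mulR X' h) (ae_mulL Y h')

/-- an element which `s` conjugates -/
theorem ae_conj {d m : ℕ} {s s' x y w : Matrix (Fin b) (Fin b) F} (hs : AE d (s * s') 1)
    (h1 : AE d (s * x) w) (h2 : AE d (y * s) w) {X : Matrix (Fin b) (Fin b) F}
    (hx : AE m x X) : AE (m + 3 * d) y (s * X * s') := by
  have a1 : AE d y (y * (s * s')) := by
    have := ae_mulL y (ae_symm hs)
    rwa [Matrix.mul_one] at this
  have a2 : AE d (y * s * s') (w * s') := ae_mulR s' h2
  have a3 : AE d (w * s') (s * x * s') := ae_mulR s' (ae_symm h1)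
  have a4 : AE m (s * x * s') (s * X * s') := ae_mulR s' (ae_mulL s hx)
  rw [← Matrix.mul_assoc] at a1
  exact ae_mono (ae_trans (ae_trans (ae_trans a1 a2) a3) a4) (by omega)

/-- commutation with `s e s'` -/
theorem ae_comm {d m : ℕ} {t y X w : Matrix (Fin b) (Fin b) F} (hy : AE m y X)
    (h1 : AE d (t * y) w) (h2 : AE d (y * t) w) : AE (2 * m + 2 * d) (t * X) (X * t) := by
  have a1 : AE m (t * X) (t * y) := ae_mulL t (ae_symm hy)
  have a2 : AE m (y * t) (X * t) := ae_mulR t hy
  exact ae_mono (ae_trans (ae_trans (ae_trans a1 h1) (ae_symm h2)) a2) (by omega)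

theorem st_SR (F : Type u) [Field F] : ST_SR F := by
  refine ⟨100, fun b d z H1 H2 H3 => ?_⟩
  have R : ∀ x y w : Vr, (x, y, w) ∈ pr → AE d (z x * z y) (z w) := by
    intro x y w hm
    obtain ⟨m, hm⟩ := List.get_of_mem hm
    have := H1 m
    simp only [SY, hm] at this
    exact this
  have h1 : z .one = 1 := by
    have := H3 .one 1 rfl
    simpa using this
  have h0 : z .zero = 0 := by
    have := H3 .zero 0 rfl
    simpa using this
  have R1 : ∀ x y : Vr, (x, y, Vr.one) ∈ pr → AE d (z x * z y) 1 := by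
    intro x y hm
    have := R x y .one hm
    rwa [h1] at this
  have R0 : ∀ x y : Vr, (x, y, Vr.zero) ∈ pr → AE d (z x * z y) 0 := by
    intro x y hm
    have := R x y .zero hm
    rwa [h0] at this
  have ss := R1 .s .s' (by decide)
  have ss' := R1 .s' .s (by decide)
  have hh := R1 .h .h' (by decide)
  have hst : AE d (z .s * z .t) (z .st) := R .s .t .st (by decide)
  have C4 : ∀ x w : Vr, (x, Vr.st, w) ∈ pr → (Vr.st, x, w) ∈ pr →
      AE (4 * d) (z x * (z .s * z .t)) (z .s * z .t * z x) := by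
    intro x w m1 m2
    exact ae_mono (ae_comm (ae_symm hst) (R _ _ _ m1) (R _ _ _ m2)) (by omega)
  have e1 : AE (3 * d) (z .e1) (z .s * z .e * z .s') :=
    ae_mono (ae_conj (m := 0) ss (R .s .e .se (by decide)) (R .e1 .s .se (by decide))
      (ae_refl 0 _)) (by omega)
  have C8 : ∀ x w : Vr, (x, Vr.e1, w) ∈ pr → (Vr.e1, x, w) ∈ pr →
      AE (8 * d) (z x * (z .s * z .e * z .s')) (z .s * z .e * z .s' * z x) := by
    intro x w m1 m2
    exact ae_mono (ae_comm e1 (R _ _ _ m1) (R _ _ _ m2)) (by omega)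
  have em : AE (3 * d) (z .em) (z .s' * z .e * z .s) := by
    have a1 : AE d (z .em) (z .s' * z .s * z .em) := by
      have := ae_mulR (z .em) (ae_symm ss')
      rwa [Matrix.one_mul] at this
    have a2 : AE d (z .s' * (z .s * z .em)) (z .s' * z .es) :=
      ae_mulL _ (R .s .em .es (by decide))
    have a3 : AE d (z .s' * z .es) (z .s' * (z .e * z .s)) :=
      ae_mulL _ (ae_symm (R .e .s .es (by decide)))
    rw [← Matrix.mul_assoc] at a2 a3
    exact ae_mono (ae_trans (ae_trans a1 a2) a3) (by omega)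
  have q : AE (4 * d) (z .q) (z .e * (z .s' * z .e * z .s)) :=
    ae_mono (ae_trans (ae_symm (R .e .em .q (by decide))) (ae_mulL _ em)) (by omega)
  have E0 : AE d (z (.E 0)) (z .e) := by
    have := R .one .e (.E 0) (by decide)
    rw [h1, Matrix.one_mul] at this
    exact ae_symm this
  have E1 := ae_conj hh (R .h (.E 0) (.hE 0) (by decide)) (R (.E 1) .h (.hE 0) (by decide)) E0
  have E2 := ae_conj hh (R .h (.E 1) (.hE 1) (by decide)) (R (.E 2) .h (.hE 1) (by decide)) E1
  have E3 := ae_conj hh (R .h (.E 2) (.hE 2) (by decide)) (R (.E 3) .h (.hE 2) (by decide)) E2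
  have G0 := ae_conj hh (R .h .q (.hG 0) (by decide)) (R (.G 0) .h (.hG 0) (by decide)) q
  have G1 := ae_conj hh (R .h (.G 0) (.hG 1) (by decide)) (R (.G 1) .h (.hG 1) (by decide)) G0
  have G2 := ae_conj hh (R .h (.G 1) (.hG 2) (by decide)) (R (.G 2) .h (.hG 2) (by decide)) G1
  have E4 := ae_conj hh (R .h (.G 2) (.hG 3) (by decide)) (R (.E 4) .h (.hG 3) (by decide)) G2
  have EA : ∀ i : Fin 5, AE (16 * d) (EE (z .s) (z .s') (z .h) (z .h') (z .e) i) (z (.E i)) := by
    intro i
    fin_cases i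
    · exact ae_mono (ae_symm E0) (by omega)
    · exact ae_mono (ae_symm E1) (by omega)
    · exact ae_mono (ae_symm E2) (by omega)
    · exact ae_mono (ae_symm E3) (by omega)
    · exact ae_mono (ae_symm E4) (by omega)
  have EN : ∀ i : Fin 5, AE (17 * d) (1 - EE (z .s) (z .s') (z .h) (z .h') (z .e) i)
      (-(z (.n i))) := by
    intro i
    have a1 : AE (16 * d) (1 - EE (z .s) (z .s') (z .h) (z .h') (z .e) i) (1 - z (.E i)) := by
      have := ae_symm (EA i)
      unfold AE at this ⊢
      have e : (1 - EE (z .s) (z .s') (z .h) (z .h') (z .e) i) - (1 - z (.E i)) =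
        z (.E i) - EE (z .s) (z .s') (z .h) (z .h') (z .e) i := by abel
      rw [e]; exact this
    have a2 : AE d (1 - z (.E i)) (-(z (.n i))) := by
      have := ae_symm (H2 (.E i) (.n i) 1 (by simp) (by simp [SY]))
      unfold AE at this ⊢
      have e : (1 - z (.E i)) - (-(z (.n i))) = (1 : F) • 1 - (z (.E i) - z (.n i)) := by
        rw [one_smul]; abel
      rw [e]; exact this
    exact ae_mono (ae_trans a1 a2) (by omega)
  refine ⟨?_, ?_, ?_, ?_, ?_, ?_, ?_, ?_, ?_, ?_, ?_, ?_, ?_, ?_, ?_, ?_, ?_⟩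
  · exact ae_mono ss (by omega)
  · exact ae_mono ss' (by omega)
  · exact ae_mono (R1 .t .t' (by decide)) (by omega)
  · exact ae_mono (R1 .t' .t (by decide)) (by omega)
  · exact ae_mono hh (by omega)
  · exact ae_mono (R1 .h' .h (by decide)) (by omega)
  · have a1 := R .t .s .ts (by decide)
    have a2 := ae_symm (R .sk .t .ts (by decide))
    have a3 := ae_mulR (z .t) (ae_symm (R .s .k .sk (by decide)))
    exact ae_mono (ae_trans (ae_trans a1 a2) a3) (by omega)
  · exact ae_mono (C4 .k .kst (by decide) (by decide)) (by omega)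
  · exact ae_mono (C4 .h .hst (by decide) (by decide)) (by omega)
  · exact ae_mono (C4 .e .est (by decide) (by decide)) (by omega)
  · exact ae_mono (R .e .e .e (by decide)) (by omega)
  · exact ae_mono (C8 .t .te1 (by decide) (by decide)) (by omega)
  · exact ae_mono (C8 .k .ke1 (by decide) (by decide)) (by omega)
  · exact ae_mono (C8 .h .he1 (by decide) (by decide)) (by omega)
  · exact ae_mono (C8 .e .ee1 (by decide) (by decide)) (by omega)
  · intro i j hij
    have hm : (Vr.E i, Vr.E j, Vr.zero) ∈ pr := by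
      revert i j; decide
    exact ae_mono (ae_trans (ae_mul (EA i) (EA j)) (R0 _ _ hm)) (by omega)
  · have a0 := ae_mul (ae_mul (ae_mul (ae_mul (EN 0) (EN 1)) (EN 2)) (EN 3)) (EN 4)
    have e : -(z (.n 0)) * -(z (.n 1)) * -(z (.n 2)) * -(z (.n 3)) * -(z (.n 4)) =
      -(z (.n 0) * z (.n 1) * z (.n 2) * z (.n 3) * z (.n 4)) := by
      simp
    rw [e] at a0
    have b1 := ae_mulR (z (.n 4)) (ae_mulR (z (.n 3)) (ae_mulR (z (.n 2))
      (R (.n 0) (.n 1) (.p 0) (by decide))))
    have b2 := ae_mulR (z (.n 4)) (ae_mulR (z (.n 3)) (R (.p 0) (.n 2) (.p 1) (by decide)))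
    have b3 := ae_mulR (z (.n 4)) (R (.p 1) (.n 3) (.p 2) (by decide))
    have b4 := R0 (.p 2) (.n 4) (by decide)
    have b5 : AE (4 * d) (z (.n 0) * z (.n 1) * z (.n 2) * z (.n 3) * z (.n 4)) 0 :=
      ae_mono (ae_trans (ae_trans (ae_trans b1 b2) b3) b4) (by omega)
    have b6 : AE (4 * d) (-(z (.n 0) * z (.n 1) * z (.n 2) * z (.n 3) * z (.n 4))) 0 := by
      have := ae_symm b5
      unfold AE at this ⊢
      rw [sub_zero]
      rw [zero_sub] at this
      exact this
    exact ae_mono (ae_trans a0 b6) (by omega)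

end Pool.Agent.Helper73.FR
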